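import Mathlib

/-!
# Skew-hermitian operators on renormings of Hilbert space: interfaces
-/

set_option autoImplicit false

open Filter Topology

namespace Pool.Agent.Y896.SH

/-- SH-NP: two linearly independent elements `f, g` of a space of functions on `ℕ × ℝ` that vanish at
infinity and are analytic in the real variable: the sup norm on their span is not Euclidean -/
def S_NP : Prop :=
  ∀ (f g : ℕ × ℝ → ℝ) (A B C : ℝ),
    (∀ n t, AnalyticAt ℝ (fun s => f (n, s)) t) → (∀ n t, AnalyticAt ℝ (fun s => g (n, s)) t) →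
    (∀ ε : ℝ, 0 < ε → ∃ R : ℕ, ∀ n t, (R ≤ n ∨ (R : ℝ) ≤ |t|) → |f (n, t)| ≤ ε) →
    (∀ ε : ℝ, 0 < ε → ∃ R : ℕ, ∀ n t, (R ≤ n ∨ (R : ℝ) ≤ |t|) → |g (n, t)| ≤ ε) →
    (∀ a b : ℝ, (∀ p, a * f p + b * g p = 0) → a = 0 ∧ b = 0) →
    (∀ a b : ℝ, IsLUB (Set.range fun p => (a * f p + b * g p) ^ 2)
      (A * a ^ 2 + 2 * B * a * b + C * b ^ 2)) → False

/-- SH-M: a separable real Hilbert space with a bounded skew-adjoint operator `T`, `‖T² + 1‖ ≤ δ`,
whose group `exp (t T)` tends to `0` weakly at infinity (multiplication by `i ξ` on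
`L²([1, 1 + δ'], ℂ)`) -/
def S_M : Prop :=
  ∀ δ : ℝ, 0 < δ → ∃ (H : Type) (_ : NormedAddCommGroup H) (_ : InnerProductSpace ℝ H)
    (_ : CompleteSpace H) (_ : TopologicalSpace.SeparableSpace H) (_ : Nontrivial H)
    (T : H →L[ℝ] H),
    (∀ x y, inner ℝ (T x) y = -inner ℝ x (T y)) ∧ ‖T.comp T + ContinuousLinearMap.id ℝ H‖ ≤ δ ∧
    ∀ w h : H, Tendsto (fun t : ℝ => inner ℝ w ((NormedSpace.exp (t • T) : H →L[ℝ] H) h))
      (cocompact ℝ) (𝓝 0)

end Pool.Agent.Y896.SH
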