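import Mathlib
import Pool.Agent.Y896.SH.Stm

/-!
# The renormed Hilbert space: the seminorm
-/

set_option autoImplicit false

open Filter Topology Set
open scoped BoundedContinuousFunction

namespace Pool.Agent.Y896.SH

variable {H : Type} [NormedAddCommGroup H] [InnerProductSpace ℝ H]

/-- the group generated by `T` -/
noncomputable def U (T : H →L[ℝ] H) (t : ℝ) : H →L[ℝ] H := NormedSpace.exp (t • T)

variable [CompleteSpace H]

theorem U_zero (T : H →L[ℝ] H) : U T 0 = 1 := by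
  unfold U; rw [zero_smul, NormedSpace.exp_zero]

theorem U_add (T : H →L[ℝ] H) (s t : ℝ) : U T (s + t) = U T s * U T t := by
  unfold U
  letI : NormedAlgebra ℚ (H →L[ℝ] H) := NormedAlgebra.restrictScalars ℚ ℝ _
  rw [add_smul, NormedSpace.exp_add_of_commute]
  exact ((Commute.refl T).smul_left s).smul_right t

theorem hasDerivAt_U (T : H →L[ℝ] H) (t : ℝ) : HasDerivAt (U T) (U T t * T) t := by
  exact hasDerivAt_exp_smul_const T t

theorem hasDerivAt_U' (T : H →L[ℝ] H) (t : ℝ) : HasDerivAt (U T) (T * U T t) t := by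
  exact hasDerivAt_exp_smul_const' T t

theorem analyticAt_U (T : H →L[ℝ] H) (t : ℝ) : AnalyticAt ℝ (U T) t := by
  have h1 : AnalyticAt ℝ (NormedSpace.exp : (H →L[ℝ] H) → (H →L[ℝ] H)) (t • T) :=
    NormedSpace.exp_analytic (𝕂 := ℝ) _
  have h2 : AnalyticAt ℝ (fun s : ℝ => s • T) t := (analyticAt_id).smul analyticAt_const
  exact AnalyticAt.fun_comp (g := (NormedSpace.exp : (H →L[ℝ] H) → (H →L[ℝ] H)))
    (f := fun s : ℝ => s • T) h1 h2

theorem norm_U {T : H →L[ℝ] H} (hT : ∀ x y, inner ℝ (T x) y = -inner ℝ x (T y)) (t : ℝ) (h : H) :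
    ‖U T t h‖ = ‖h‖ := by
  have hd : ∀ s, HasDerivAt (fun s => inner ℝ (U T s h) (U T s h)) 0 s := by
    intro s
    have h1 : HasDerivAt (fun s => U T s h) (T (U T s h)) s := by
      have := (hasDerivAt_U' T s).clm_apply (hasDerivAt_const s h)
      simpa using this
    have h2 := h1.inner ℝ h1
    have h3 : inner ℝ (U T s h) (T (U T s h)) + inner ℝ (T (U T s h)) (U T s h) = 0 := by
      rw [hT (U T s h) (U T s h)]; ring
    rwa [h3] at h2
  have hc := is_const_of_deriv_eq_zero (fun s => (hd s).differentiableAt) (fun s => (hd s).deriv) t 0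
  simp only [U_zero, one_apply_eq_self, real_inner_self_eq_norm_sq] at hc
  exact (sq_eq_sq₀ (norm_nonneg _) (norm_nonneg _)).1 hc

/-- a bounded total sequence -/
noncomputable def w [TopologicalSpace.SeparableSpace H] (j : ℕ) : H :=
  (1 + ‖TopologicalSpace.denseSeq H j‖)⁻¹ • TopologicalSpace.denseSeq H j

variable [TopologicalSpace.SeparableSpace H]

theorem norm_w_le (j : ℕ) : ‖(w j : H)‖ ≤ 1 := by
  unfold w
  rw [norm_smul, norm_inv]
  have h0 : 0 < 1 + ‖TopologicalSpace.denseSeq H j‖ := by positivity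
  rw [Real.norm_of_nonneg h0.le, inv_mul_le_iff₀ h0]
  linarith

theorem eq_zero_of_w {h : H} (hh : ∀ j, inner ℝ (w j) h = 0) : h = 0 := by
  have h1 : ∀ j, inner ℝ (TopologicalSpace.denseSeq H j) h = 0 := by
    intro j
    have h2 := hh j
    unfold w at h2
    rw [real_inner_smul_left, mul_eq_zero] at h2
    rcases h2 with h2 | h2
    · exfalso
      have h0 : 0 < 1 + ‖TopologicalSpace.denseSeq H j‖ := by positivity
      exact (inv_ne_zero h0.ne') h2
    · exact h2
  have h2 : ∀ y : H, inner ℝ y h = 0 := by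
    intro y
    have hcl : IsClosed {y : H | inner ℝ y h = 0} :=
      isClosed_eq (by fun_prop) continuous_const
    have := (TopologicalSpace.denseRange_denseSeq H).closure_eq
    have h3 : closure (range (TopologicalSpace.denseSeq H)) ⊆ {y : H | inner ℝ y h = 0} :=
      closure_minimal (by rintro _ ⟨j, rfl⟩; exact h1 j) hcl
    rw [this] at h3
    exact h3 (mem_univ y)
  exact inner_self_eq_zero.1 (h2 h)

/-- the functions `F h (j, t) = c 2⁻ʲ ⟨wⱼ, U(t) h⟩` -/
noncomputable def F (c : ℝ) (T : H →L[ℝ] H) (h : H) (p : ℕ × ℝ) : ℝ :=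
  c * (1 / 2) ^ p.1 * inner ℝ (w p.1) (U T p.2 h)

theorem F_analytic (c : ℝ) (T : H →L[ℝ] H) (h : H) (n : ℕ) (t : ℝ) :
    AnalyticAt ℝ (fun s => F c T h (n, s)) t := by
  unfold F
  have h1 : AnalyticAt ℝ (fun s => U T s h) t := by
    exact AnalyticAt.fun_comp (g := ContinuousLinearMap.apply ℝ H h) (f := U T)
      (ContinuousLinearMap.analyticAt _ _) (analyticAt_U T t)
  have h2 : AnalyticAt ℝ (fun s => inner ℝ (w n) (U T s h)) t := by
    exact AnalyticAt.fun_comp (g := innerSL ℝ (w n : H)) (f := fun s => U T s h)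
      (ContinuousLinearMap.analyticAt _ _) h1
  have h3 := (analyticAt_const (𝕜 := ℝ) (v := c * (1 / 2 : ℝ) ^ n) (x := t)).mul h2
  exact h3

theorem F_abs_le {c : ℝ} (hc : 0 ≤ c) {T : H →L[ℝ] H}
    (hT : ∀ x y, inner ℝ (T x) y = -inner ℝ x (T y)) (h : H) (p : ℕ × ℝ) :
    |F c T h p| ≤ c * (1 / 2) ^ p.1 * ‖h‖ := by
  unfold F
  rw [abs_mul, abs_of_nonneg (by positivity)]
  refine mul_le_mul_of_nonneg_left ?_ (by positivity)
  refine (abs_real_inner_le_norm _ _).trans ?_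
  rw [norm_U hT]
  exact mul_le_of_le_one_left (norm_nonneg _) (norm_w_le _)

theorem F_abs_le' {c : ℝ} (hc : 0 ≤ c) {T : H →L[ℝ] H}
    (hT : ∀ x y, inner ℝ (T x) y = -inner ℝ x (T y)) (h : H) (p : ℕ × ℝ) :
    |F c T h p| ≤ c * ‖h‖ := by
  refine (F_abs_le hc hT h p).trans ?_
  refine mul_le_mul_of_nonneg_right ?_ (norm_nonneg _)
  exact mul_le_of_le_one_right hc (pow_le_one₀ (by norm_num) (by norm_num))

theorem F_vanish {c : ℝ} (hc : 0 ≤ c) {T : H →L[ℝ] H}
    (hT : ∀ x y, inner ℝ (T x) y = -inner ℝ x (T y))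
    (hW : ∀ v h : H, Tendsto (fun t : ℝ => inner ℝ v ((NormedSpace.exp (t • T) : H →L[ℝ] H) h))
      (cocompact ℝ) (𝓝 0)) (h : H) :
    ∀ ε : ℝ, 0 < ε → ∃ R : ℕ, ∀ n t, (R ≤ n ∨ (R : ℝ) ≤ |t|) → |F c T h (n, t)| ≤ ε := by
  intro ε hε
  obtain ⟨R₀, hR₀⟩ : ∃ R₀ : ℕ, ∀ n, R₀ ≤ n → c * (1 / 2) ^ n * ‖h‖ ≤ ε := by
    have h1 : Tendsto (fun n : ℕ => c * (1 / 2 : ℝ) ^ n * ‖h‖) atTop (𝓝 (c * 0 * ‖h‖)) :=
      ((tendsto_pow_atTop_nhds_zero_of_lt_one (by norm_num) (by norm_num)).const_mul c).mul_const _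
    rw [mul_zero, zero_mul] at h1
    have h2 := h1.eventually (gt_mem_nhds hε)
    obtain ⟨R₀, hR₀⟩ := eventually_atTop.1 h2
    exact ⟨R₀, fun n hn => (hR₀ n hn).le⟩
  have h3 : ∀ n : ℕ, ∃ R : ℕ, ∀ t : ℝ, (R : ℝ) ≤ |t| → |F c T h (n, t)| ≤ ε := by
    intro n
    have h4 : Tendsto (fun t : ℝ => F c T h (n, t)) (cocompact ℝ) (𝓝 0) := by
      have := (hW (w n) h).const_mul (c * (1 / 2) ^ n)
      rw [mul_zero] at this
      exact this
    have h5 : ∀ᶠ t in cocompact ℝ, |F c T h (n, t)| < ε := by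
      have := h4.abs
      rw [abs_zero] at this
      exact this.eventually (gt_mem_nhds hε)
    rw [← Metric.cobounded_eq_cocompact] at h5
    obtain ⟨R, hR⟩ := (Metric.hasBasis_cobounded_compl_ball (0 : ℝ)).eventually_iff.1 h5
    obtain ⟨R', hR'⟩ := exists_nat_ge R
    refine ⟨R', fun t ht => (hR.2 ?_).le⟩
    simp only [mem_compl_iff, Metric.mem_ball, dist_zero_right, not_lt, Real.norm_eq_abs]
    linarith
  choose R hR using h3
  refine ⟨max R₀ ((Finset.range R₀).sup R), fun n t hnt => ?_⟩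
  by_cases hn : R₀ ≤ n
  · exact (F_abs_le hc hT h (n, t)).trans (hR₀ n hn)
  · push Not at hn
    refine hR n t ?_
    rcases hnt with hnt | hnt
    · exact absurd ((le_max_left _ _).trans hnt) (not_le.2 hn)
    · refine le_trans ?_ hnt
      have h6 : R n ≤ (Finset.range R₀).sup R := Finset.le_sup (Finset.mem_range.2 hn)
      exact_mod_cast h6.trans (le_max_right _ _)

theorem F_continuous (c : ℝ) (T : H →L[ℝ] H) (h : H) : Continuous (F c T h) := by
  rw [continuous_prod_of_discrete_left]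
  intro n
  rw [continuous_iff_continuousAt]
  exact fun t => (F_analytic c T h n t).continuousAt

theorem F_add (c : ℝ) (T : H →L[ℝ] H) (h k : H) (p : ℕ × ℝ) :
    F c T (h + k) p = F c T h p + F c T k p := by
  unfold F
  rw [map_add, inner_add_right]; ring

theorem F_smul (c : ℝ) (T : H →L[ℝ] H) (a : ℝ) (h : H) (p : ℕ × ℝ) :
    F c T (a • h) p = a * F c T h p := by
  unfold F
  rw [map_smul, real_inner_smul_right]; ring

theorem F_U (c : ℝ) (T : H →L[ℝ] H) (s : ℝ) (h : H) (n : ℕ) (t : ℝ) :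
    F c T (U T s h) (n, t) = F c T h (n, t + s) := by
  unfold F
  rw [U_add]; rfl

theorem eq_zero_of_F {c : ℝ} (hc : 0 < c) {T : H →L[ℝ] H} {h : H} (h0 : ∀ p, F c T h p = 0) :
    h = 0 := by
  refine eq_zero_of_w fun j => ?_
  have h1 := h0 (j, 0)
  unfold F at h1
  simp only [U_zero, one_apply_eq_self] at h1
  have h2 : c * (1 / 2 : ℝ) ^ j ≠ 0 := by positivity
  exact (mul_eq_zero.1 h1).resolve_left h2

/-- the embedding -/
noncomputable def iota {c : ℝ} (hc : 0 ≤ c) {T : H →L[ℝ] H}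
    (hT : ∀ x y, inner ℝ (T x) y = -inner ℝ x (T y)) : H →L[ℝ] ((ℕ × ℝ) →ᵇ ℝ) :=
  LinearMap.mkContinuous
    { toFun := fun h => BoundedContinuousFunction.ofNormedAddCommGroup (F c T h)
        (F_continuous c T h) (c * ‖h‖) (fun p => by
          rw [Real.norm_eq_abs]; exact F_abs_le' hc hT h p)
      map_add' := fun h k => by
        ext p
        exact F_add c T h k p
      map_smul' := fun a h => by
        ext p
        exact F_smul c T a h p } c (fun h => by
      refine (BoundedContinuousFunction.norm_le (by positivity)).2 fun p => ?_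
      rw [Real.norm_eq_abs]; exact F_abs_le' hc hT h p)

theorem iota_apply {c : ℝ} (hc : 0 ≤ c) {T : H →L[ℝ] H}
    (hT : ∀ x y, inner ℝ (T x) y = -inner ℝ x (T y)) (h : H) (p : ℕ × ℝ) :
    iota hc hT h p = F c T h p := rfl

theorem norm_iota_le {c : ℝ} (hc : 0 ≤ c) {T : H →L[ℝ] H}
    (hT : ∀ x y, inner ℝ (T x) y = -inner ℝ x (T y)) (h : H) : ‖iota hc hT h‖ ≤ c * ‖h‖ := by
  refine (BoundedContinuousFunction.norm_le (by positivity)).2 fun p => ?_
  rw [Real.norm_eq_abs]; exact F_abs_le' hc hT h p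

theorem norm_iota_U_le {c : ℝ} (hc : 0 ≤ c) {T : H →L[ℝ] H}
    (hT : ∀ x y, inner ℝ (T x) y = -inner ℝ x (T y)) (s : ℝ) (h : H) :
    ‖iota hc hT (U T s h)‖ ≤ ‖iota hc hT h‖ := by
  refine (BoundedContinuousFunction.norm_le (norm_nonneg _)).2 fun p => ?_
  obtain ⟨n, t⟩ := p
  rw [iota_apply, F_U, ← iota_apply hc hT]
  exact (iota hc hT h).norm_coe_le_norm _

end Pool.Agent.Y896.SH
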