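import Mathlib
import Pool.Agent.Y896.SH.X1
import Pool.Agent.Results.MP_981724_an.NoComplexSubspace

/-!
# The renormed Hilbert space: the space, the operator
-/

set_option autoImplicit false

open Filter Topology Set
open scoped BoundedContinuousFunction

namespace Pool.Agent.Y896.SH

open Pool.Agent.Results.MP_981724_an.NoComplexSubspace

section
variable {H B : Type} [NormedAddCommGroup H] [InnerProductSpace ℝ H] [CompleteSpace H]
  [NormedAddCommGroup B] [NormedSpace ℝ B] (φ : H →L[ℝ] B)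

/-- the graph map -/
noncomputable def gm : H →L[ℝ] WithLp 2 (H × B) :=
  (WithLp.prodContinuousLinearEquiv 2 ℝ H B).symm.toContinuousLinearMap.comp
    ((ContinuousLinearMap.id ℝ H).prod φ)

theorem gm_norm_sq (h : H) : ‖gm φ h‖ ^ 2 = ‖h‖ ^ 2 + ‖φ h‖ ^ 2 := by
  rw [WithLp.prod_norm_sq_eq_of_L2]
  rfl

theorem norm_le_gm (h : H) : ‖h‖ ≤ ‖gm φ h‖ := by
  have h1 := gm_norm_sq φ h
  refine le_of_sq_le_sq ?_ (norm_nonneg _)
  nlinarith [sq_nonneg ‖φ h‖]

theorem gm_le {c : ℝ} (hc : 0 ≤ c) (hφ : ∀ h, ‖φ h‖ ≤ c * ‖h‖) (h : H) :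
    ‖gm φ h‖ ≤ (1 + c) * ‖h‖ := by
  have h1 := gm_norm_sq φ h
  refine le_of_sq_le_sq ?_ (by positivity)
  have h2 := hφ h
  have h3 : ‖φ h‖ ^ 2 ≤ (c * ‖h‖) ^ 2 := pow_le_pow_left₀ (norm_nonneg _) h2 2
  have h4 : 0 ≤ c * ‖h‖ ^ 2 := by positivity
  nlinarith

theorem gm_inj : Function.Injective (gm φ) := by
  intro a b hab
  have h1 : gm φ (a - b) = 0 := by rw [map_sub, hab, sub_self]
  have h2 := norm_le_gm φ (a - b)
  rw [h1, norm_zero] at h2
  exact sub_eq_zero.1 (norm_le_zero_iff.1 h2)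

/-- the space: the graph of `φ` in the `ℓ²`-sum, i.e. `H` with the norm `(‖h‖² + ‖φ h‖²)^(1/2)` -/
def XS : Type := LinearMap.range (gm φ).toLinearMap

noncomputable instance : NormedAddCommGroup (XS φ) :=
  inferInstanceAs (NormedAddCommGroup (LinearMap.range (gm φ).toLinearMap))

noncomputable instance : NormedSpace ℝ (XS φ) :=
  inferInstanceAs (NormedSpace ℝ (LinearMap.range (gm φ).toLinearMap))

/-- the linear isomorphism -/
noncomputable def e0 : H ≃ₗ[ℝ] XS φ := LinearEquiv.ofInjective (gm φ).toLinearMap (gm_inj φ)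

theorem e0_norm (h : H) : ‖e0 φ h‖ = ‖gm φ h‖ := rfl

/-- `H` is isomorphic to the space -/
noncomputable def ee : H ≃L[ℝ] XS φ :=
  (e0 φ).toContinuousLinearEquivOfBounds
    ‖gm φ‖ 1 (fun h => by rw [e0_norm]; exact (gm φ).le_opNorm h) (fun x => by
      obtain ⟨h, rfl⟩ := (e0 φ).surjective x
      rw [LinearEquiv.symm_apply_apply, one_mul, e0_norm]
      exact norm_le_gm φ h)

theorem ee_norm (h : H) : ‖ee φ h‖ = ‖gm φ h‖ := rfl

theorem ee_norm_sq (h : H) : ‖ee φ h‖ ^ 2 = ‖h‖ ^ 2 + ‖φ h‖ ^ 2 := gm_norm_sq φ h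

theorem XS_complete : CompleteSpace (XS φ) := by
  exact (completeSpace_congr (e := (ee φ).toEquiv) (ee φ).isUniformEmbedding).1 inferInstance

theorem XS_uniformConvex : UniformConvexSpace (XS φ) := by
  refine ⟨fun ε hε => ?_⟩
  set M : ℝ := ‖gm φ‖ + 1 with hM
  have hM0 : 0 < M := by positivity
  refine ⟨2 - √(4 - (ε / M) ^ 2), ?_, ?_⟩
  · have h1 : √(4 - (ε / M) ^ 2) < 2 := by
      rw [Real.sqrt_lt' (by norm_num)]
      have : 0 < (ε / M) ^ 2 := by positivity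
      linarith
    linarith
  · intro x hx y hy hxy
    obtain ⟨h, rfl⟩ := (ee φ).surjective x
    obtain ⟨k, rfl⟩ := (ee φ).surjective y
    have h1 := ee_norm_sq φ h
    have h2 := ee_norm_sq φ k
    have h3 := ee_norm_sq φ (h + k)
    have h4 : ‖h + k‖ ^ 2 + ‖h - k‖ ^ 2 = 2 * (‖h‖ ^ 2 + ‖k‖ ^ 2) := by
      have := parallelogram_law_with_norm ℝ h k
      nlinarith
    have h5 : ‖φ (h + k)‖ ^ 2 ≤ 2 * (‖φ h‖ ^ 2 + ‖φ k‖ ^ 2) := by
      have h6 : ‖φ (h + k)‖ ≤ ‖φ h‖ + ‖φ k‖ := by rw [map_add]; exact norm_add_le _ _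
      have h7 := norm_nonneg (φ (h + k))
      nlinarith [sq_nonneg (‖φ h‖ - ‖φ k‖)]
    have h8 : ε / M ≤ ‖h - k‖ := by
      rw [div_le_iff₀ hM0]
      refine hxy.trans ?_
      rw [← map_sub, ee_norm]
      refine ((gm φ).le_opNorm _).trans ?_
      rw [mul_comm]
      exact mul_le_mul_of_nonneg_left (by rw [hM]; linarith) (norm_nonneg _)
    have h9 : (ε / M) ^ 2 ≤ ‖h - k‖ ^ 2 := pow_le_pow_left₀ (by positivity) h8 2
    rw [← map_add]
    rw [hx] at h1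
    rw [hy] at h2
    have h10 : ‖ee φ (h + k)‖ ^ 2 ≤ 4 - (ε / M) ^ 2 := by
      rw [h3]; nlinarith
    have h11 : ‖ee φ (h + k)‖ ≤ √(4 - (ε / M) ^ 2) := Real.le_sqrt_of_sq_le h10
    linarith

/-- conjugation of an operator -/
noncomputable def conj (T : H →L[ℝ] H) : XS φ →L[ℝ] XS φ :=
  ((ee φ).toContinuousLinearMap.comp T).comp (ee φ).symm.toContinuousLinearMap

theorem conj_apply (T : H →L[ℝ] H) (h : H) : conj φ T (ee φ h) = ee φ (T h) := by
  unfold conj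
  simp

end

section
variable {H B : Type} [NormedAddCommGroup H] [InnerProductSpace ℝ H] [CompleteSpace H]
  [NormedAddCommGroup B] [NormedSpace ℝ B]
  {T : H →L[ℝ] H} (hT : ∀ x y, inner ℝ (T x) y = -inner ℝ x (T y))
  (φ : H →L[ℝ] B) (hφ : ∀ s h, ‖φ (U T s h)‖ ≤ ‖φ h‖)

include hT hφ

theorem norm_ee_U (s : ℝ) (h : H) : ‖ee φ (U T s h)‖ ≤ ‖ee φ h‖ := by
  refine le_of_sq_le_sq ?_ (norm_nonneg _)
  rw [ee_norm_sq, ee_norm_sq, norm_U hT]
  have := pow_le_pow_left₀ (norm_nonneg _) (hφ s h) 2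
  linarith

theorem numRange_sub : numRange (X := XS φ) (conj φ T) ⊆ {0} := by
  rintro d ⟨x, f, hx, hf, hfx, rfl⟩
  obtain ⟨h, rfl⟩ := (ee φ).surjective x
  have h1 : ∀ s, f (ee φ (U T s h)) ≤ 1 := by
    intro s
    have h2 : ‖ee φ (U T s h)‖ ≤ 1 := by
      rw [← hx]
      exact norm_ee_U hT φ hφ s h
    calc f (ee φ (U T s h)) ≤ ‖f (ee φ (U T s h))‖ := le_abs_self _
      _ ≤ ‖f‖ * ‖ee φ (U T s h)‖ := f.le_opNorm _
      _ ≤ 1 * 1 := by rw [hf]; exact mul_le_mul_of_nonneg_left h2 zero_le_one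
      _ = 1 := one_mul 1
  have h3 : HasDerivAt (fun s => f (ee φ (U T s h))) (f (ee φ (T h))) 0 := by
    have h4 : HasDerivAt (fun s => U T s h) (T h) 0 := by
      have := (hasDerivAt_U' T 0).clm_apply (hasDerivAt_const 0 h)
      simpa [U_zero] using this
    have h5 := ((f.comp (ee φ).toContinuousLinearMap).hasFDerivAt (x := U T 0 h)).comp_hasDerivAt 0 h4
    exact h5
  have h6 : IsLocalMax (fun s => f (ee φ (U T s h))) 0 := by
    refine Filter.Eventually.of_forall fun s => ?_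
    simp only [U_zero, one_apply_eq_self]
    rw [hfx]
    exact h1 s
  have h7 := h6.hasDerivAt_eq_zero h3
  rw [mem_singleton_iff, conj_apply]
  exact h7

theorem numRange_zero [Nontrivial H] : numRange (X := XS φ) (conj φ T) = {0} := by
  obtain ⟨h, hh⟩ := exists_ne (0 : H)
  refine numRange_eq (E := XS φ) _ (numRange_sub hT φ hφ) (ee _ h) ?_
  rw [Ne, map_eq_zero_iff _ (ee _).injective]
  exact hh

end

section
variable {H : Type} [NormedAddCommGroup H] [InnerProductSpace ℝ H] [CompleteSpace H]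
  [TopologicalSpace.SeparableSpace H]
  {c : ℝ} (hc : 0 < c) {T : H →L[ℝ] H} (hT : ∀ x y, inner ℝ (T x) y = -inner ℝ x (T y))

include hc hT

theorem no_plane' (hNP : S_NP)
    (hW : ∀ v h : H, Tendsto (fun t : ℝ => inner ℝ v ((NormedSpace.exp (t • T) : H →L[ℝ] H) h))
      (cocompact ℝ) (𝓝 0)) (φ : H →L[ℝ] ((ℕ × ℝ) →ᵇ ℝ)) (hφ : ∀ h p, φ h p = F c T h p)
    (x y : XS φ) (hxy : ∀ a b : ℝ, ‖a • x + b • y‖ = √(a ^ 2 + b ^ 2)) : False := by
  obtain ⟨h, rfl⟩ := (ee φ).surjective x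
  obtain ⟨k, rfl⟩ := (ee φ).surjective y
  have h1 : ∀ a b : ℝ, ‖a • h + b • k‖ ^ 2 + ‖φ (a • h + b • k)‖ ^ 2 = a ^ 2 + b ^ 2 := by
    intro a b
    have h0 := hxy a b
    have e : a • ee φ h + b • ee φ k = ee φ (a • h + b • k) := by
      rw [map_add, map_smul, map_smul]
    have e2 : ‖ee φ (a • h + b • k)‖ = √(a ^ 2 + b ^ 2) := by
      rw [← e]; exact h0
    rw [← ee_norm_sq, e2, Real.sq_sqrt (by positivity)]
  have h2 : ∀ a b : ℝ, ‖a • h + b • k‖ ^ 2 = a ^ 2 * ‖h‖ ^ 2 + 2 * (a * b * inner ℝ h k) +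
      b ^ 2 * ‖k‖ ^ 2 := by
    intro a b
    rw [norm_add_sq_real, norm_smul, norm_smul, real_inner_smul_left, real_inner_smul_right,
      mul_pow, mul_pow, Real.norm_eq_abs, Real.norm_eq_abs, sq_abs, sq_abs]
    ring
  have h3 : ∀ a b : ℝ, ∀ p, φ (a • h + b • k) p = a * F c T h p + b * F c T k p := by
    intro a b p
    rw [hφ, F_add, F_smul, F_smul]
  refine hNP (F c T h) (F c T k) (1 - ‖h‖ ^ 2) (-inner ℝ h k) (1 - ‖k‖ ^ 2)
    (F_analytic c T h) (F_analytic c T k) (F_vanish hc.le hT hW h) (F_vanish hc.le hT hW k)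
    (fun a b hab => ?_) (fun a b => ?_)
  · have h4 : a • h + b • k = 0 := by
      refine eq_zero_of_F hc (T := T) fun p => ?_
      rw [F_add, F_smul, F_smul]
      exact hab p
    have h5 := h1 a b
    rw [h4, map_zero, norm_zero, norm_zero] at h5
    constructor <;> nlinarith [sq_nonneg a, sq_nonneg b]
  · have h4 : (1 - ‖h‖ ^ 2) * a ^ 2 + 2 * -inner ℝ h k * a * b + (1 - ‖k‖ ^ 2) * b ^ 2 =
        ‖φ (a • h + b • k)‖ ^ 2 := by
      have := h1 a b
      rw [h2] at this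
      linarith
    rw [h4]
    constructor
    · rintro _ ⟨p, rfl⟩
      simp only
      rw [← h3, ← sq_abs]
      exact pow_le_pow_left₀ (abs_nonneg _) ((φ (a • h + b • k)).norm_coe_le_norm p) 2
    · intro m hm
      have hm0 : 0 ≤ m := (sq_nonneg _).trans (hm ⟨(0, 0), rfl⟩)
      have h5 : ‖φ (a • h + b • k)‖ ≤ √m := by
        refine (BoundedContinuousFunction.norm_le (Real.sqrt_nonneg _)).2 fun p => ?_
        rw [Real.norm_eq_abs]
        refine Real.le_sqrt_of_sq_le ?_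
        rw [sq_abs, h3]
        exact hm ⟨p, rfl⟩
      calc ‖φ (a • h + b • k)‖ ^ 2 ≤ (√m) ^ 2 := pow_le_pow_left₀ (norm_nonneg _) h5 2
        _ = m := Real.sq_sqrt hm0

end

end Pool.Agent.Y896.SH
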